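import Pool.Agent.Helper4.It.Goals
import Pool.Agent.Helper89.Comp.P2

/-! Packet C6: poles of a rational function known at the positive real numbers. -/

namespace Mono

namespace It

open Finset Filter Topology Mono.Comp

open Polynomial in
theorem poleR2 : PoleR2 := by
  classical
  intro Z Y G m Q hZ hY h1G
  set D' : ℂ[X] := (X + C (1 : ℂ)) * ∏ b ∈ G, (X + C (b : ℂ)) ^ m with hD'
  set Q' : ℂ[X] := Q.map (algebraMap ℝ ℂ) with hQ'
  have hD'e : ∀ z : ℂ, D'.eval z = (z + 1) * ∏ b ∈ G, (z + (b : ℂ)) ^ m := by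
    intro z
    simp [hD', eval_prod]
  have hpoly : Z.num * D' = Q' * Z.denom := by
    apply Polynomial.eq_of_infinite_eval_eq
    have hinf' := (Set.Ioi_infinite (0 : ℝ)).image (f := fun x : ℝ => (x : ℂ))
      (Complex.ofReal_injective.injOn)
    refine hinf'.mono ?_
    rintro _ ⟨s, hs, rfl⟩
    obtain ⟨h1, h2⟩ := hZ s hs
    have h3 : RatFunc.eval (RingHom.id ℂ) (s : ℂ) Z =
        Z.num.eval (s : ℂ) / Z.denom.eval (s : ℂ) := by
      simp [RatFunc.eval, eval₂_id]
    rw [h3, div_eq_iff h1] at h2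
    have h4 := hY s hs
    have h5 : Q'.eval (s : ℂ) = ((Q.eval s : ℝ) : ℂ) := by
      rw [hQ', eval_map]
      exact eval₂_at_apply (algebraMap ℝ ℂ) s
    simp only [Set.mem_ofPred_eq]
    rw [eval_mul (p := Z.num), hD'e, eval_mul (p := Q'), h2, h5, ← h4]
    push_cast
    ring
  have hdvd : Z.denom ∣ D' := by
    have hc : IsCoprime Z.denom Z.num := (RatFunc.isCoprime_num_denom Z).symm
    exact hc.dvd_of_dvd_mul_left ⟨Q', by rw [hpoly, mul_comm]⟩
  have hE : (∏ b ∈ G, (X + C (b : ℂ)) ^ m).eval (-1) ≠ 0 := by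
    rw [eval_prod, Finset.prod_ne_zero_iff]
    intro b hb
    rw [eval_pow, eval_add, eval_X, eval_C]
    refine pow_ne_zero _ fun h => h1G ?_
    have h2 : (b : ℂ) = 1 := by linear_combination h
    have h3 : b = 1 := by exact_mod_cast h2
    rw [← h3]
    exact hb
  have hE0 : (∏ b ∈ G, (X + C (b : ℂ)) ^ m) ≠ 0 := by
    intro h
    rw [h, eval_zero] at hE
    exact hE rfl
  have hX : (X + C (1 : ℂ)) ≠ 0 := X_add_C_ne_zero 1
  have hD0 : D' ≠ 0 := mul_ne_zero hX hE0
  have hmul : D'.rootMultiplicity (-1) ≤ 1 := by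
    rw [hD', rootMultiplicity_mul hD0, rootMultiplicity_eq_zero (p := ∏ b ∈ G, _) hE, add_zero]
    have : (X + C (1 : ℂ)) = X - C (-1) := by simp
    rw [this, rootMultiplicity_X_sub_C_self]
  exact (rootMultiplicity_le_rootMultiplicity_of_dvd hD0 hdvd (-1)).trans hmul

end It

end Mono
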