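import Pool.Agent.Helper4.It.Goals

/-! Packet C7: integral Euler characteristics. -/

namespace Mono

namespace It

open Finset Filter Topology Mono.Comp

theorem zq_toQ (g : List Stratum) (e : ℕ) : ZQ (g.map toQ) e = Ze g e := by
  unfold ZQ Ze
  rw [List.map_map]
  refine congrArg List.sum (List.map_congr_left fun t _ => ?_)
  by_cases h : ∀ q ∈ t.2, e ∣ q.1
  · refine (if_pos (show ∀ q ∈ (toQ t).2, e ∣ q.1 from h)).trans (Eq.trans ?_ (if_pos h).symm)
    simp [toQ]
  · exact (if_neg (show ¬ ∀ q ∈ (toQ t).2, e ∣ q.1 from h)).trans (if_neg h).symm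

theorem baseQ : BaseQ := by
  intro g E
  refine ⟨?_, ?_⟩
  · intro h t ht
    obtain ⟨t', ht', rfl⟩ := List.mem_map.1 ht
    exact h t' ht'
  · intro h e he z hz
    rw [zq_toQ] at hz ⊢
    exact h e he z hz

end It

end Mono
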