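import Pool.Agent.Helper4.It.Closure

/-! The inductive class. -/

namespace Mono

namespace It

open Finset Filter Topology Mono.Comp

theorem expo_facts {k : ℕ} {P : MvPolynomial (Fin k) ℂ} (hP : P ≠ 0) (h0 : P.coeff 0 = 0) :
    (expo P).Nonempty ∧ (∀ v ∈ expo P, ∀ i, 0 ≤ v i) ∧ (0 : Fin k → ℤ) ∉ expo P := by
  refine ⟨?_, ?_, ?_⟩
  · unfold expo
    exact (Finset.nonempty_iff_ne_empty.2 (by simpa using hP)).image _
  · intro v hv i
    obtain ⟨d, _, rfl⟩ := Finset.mem_image.1 hv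
    simp
  · intro h
    obtain ⟨d, hd, hd0⟩ := Finset.mem_image.1 h
    have : d = 0 := by
      ext i
      have := congrFun hd0 i
      simpa using this
    subst this
    exact (MvPolynomial.mem_support_iff.1 hd) h0

/-- The main theorem for the class `Res`. -/
theorem res_smc (hCl : Closure) (hC : CurveSMC)
    (hA : ∀ M : ArrGerm, GoodG M.strata ∧ SMC M.strata M.eig) (hB : BaseQ) :
    ∀ (g : List QStratum) (E : Set ℂ), Res g E → GoodQ g ∧ SMCQ g E := by
  intro g E h
  induction h with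
  | curve C => exact ⟨(hB _ C.eig).1 (hC C).1, (hB _ _).2 (hC C).2⟩
  | arr M => exact ⟨(hB _ M.eig).1 (hA M).1, (hB _ _).2 (hA M).2⟩
  | comp P b g E T hP h0 hb hlin _ hT ih =>
    obtain ⟨a1, a2, a3⟩ := expo_facts hP h0
    exact (hCl _ (expo P) b a1 a2 a3 hb hlin g E (fun i => (ih i).1) (fun i => (ih i).2)).2 T hT

end It

end Mono
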