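import Pool.Agent.Helper4.It.Goals
import Pool.Agent.Helper77.Comp.G7

/-!
# Packet G7: the terms of the expansion, integral poles included
-/

namespace Mono

namespace It

open Finset Filter Topology Mono.Comp Mono.Comp.G7

/-- G7. -/
theorem nodeLimI (h1 : LimitWR) (h2 : NodeKillI) (h3 : LimLemma) (h4 : GenDir) :
    NodeLimI := by
  classical
  intro k A Z Φ hk ht hcoh e x hx v hv F hF
  set V := Vset e x with hVdef
  have hVout : ∀ i, i ∉ V → e i = 1 ∧ (x i).1 = 1 ∧ (x i).2 = 0 := by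
    intro i hi
    simpa [hVdef, Vset] using hi
  set r : Fin k → ℝ := fun i => (x i).1 with hr
  set L := finSigmaFinEquiv (m := k) (n := fun i => (x i).2 + 1) with hL
  set N := ∑ i : Fin k, ((x i).2 + 1) with hN
  let blk : Fin N → Fin k := fun j => (L.symm j).1
  let lev : Fin N → ℕ := fun j => ((L.symm j).2 : ℕ)
  have hlev : ∀ j, lev j < (x (blk j)).2 + 1 := fun j => (L.symm j).2.isLt
  have hbl : ∀ (i : Fin k) (l : Fin ((x i).2 + 1)), blk (L ⟨i, l⟩) = i := by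
    intro i l
    simp [blk]
  have hinj : ∀ j j', blk j = blk j' → lev j = lev j' → j = j' := by
    intro j j' hb hl
    apply L.symm.injective
    rcases hj : L.symm j with ⟨i, a⟩
    rcases hj' : L.symm j' with ⟨i', a'⟩
    have hb' : i = i' := by
      have : (L.symm j).1 = (L.symm j').1 := hb
      rw [hj, hj'] at this
      exact this
    subst hb'
    have hl' : (a : ℕ) = (a' : ℕ) := by
      have : ((L.symm j).2 : ℕ) = ((L.symm j').2 : ℕ) := hl
      rw [hj, hj'] at this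
      exact this
    rw [Fin.ext hl']
  have hsurj : Function.Surjective blk := fun i => ⟨L ⟨i, 0⟩, hbl i 0⟩
  have hcard : ∀ i, (blkS blk i).card = (x i).2 + 1 := by
    intro i
    have : (univ : Finset (Fin ((x i).2 + 1))).card = (blkS blk i).card := by
      refine Finset.card_bij (fun l _ => L ⟨i, l⟩) ?_ ?_ ?_
      · intro l _
        exact mem_blkS.2 (hbl i l)
      · intro l _ l' _ hh
        have := L.injective hh
        simpa using this
      · intro j hj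
        have hj' : (L.symm j).1 = i := mem_blkS.1 hj
        subst hj'
        exact ⟨(L.symm j).2, Finset.mem_univ _, by simp⟩
    rw [← this]
    simp
  let ρ₀ : Fin N → ℝ := fun j => r (blk j)
  let θ : Fin N → ℝ := fun j => if blk j ∈ V then -((lev j : ℝ) + 1) else 0
  have hms : ms blk ρ₀ = repl x := by
    funext i
    unfold ms repl
    have h6 : Multiset.map ρ₀ (univ.filter (fun j => blk j = i)).val =
        Multiset.map (fun _ => r i) (univ.filter (fun j => blk j = i)).val := by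
      refine Multiset.map_congr rfl fun j hj => ?_
      have hj' : blk j = i := by simpa using hj
      change r (blk j) = r i
      rw [hj']
    rw [h6, Multiset.map_const']
    congr 1
    exact hcard i
  let ρε : ℝ → Fin N → ℝ := fun ε => ρ₀ + ε • θ
  let Good : ℝ → Prop := fun ε => (∀ j, 0 < ρε ε j) ∧ Dst blk (ρε ε)
  have hVρ : ∀ ε j, blk j ∉ V → ρε ε j = 1 := by
    intro ε j hj
    change r (blk j) + ε * (if blk j ∈ V then -((lev j : ℝ) + 1) else 0) = 1
    rw [if_neg hj, mul_zero, add_zero]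
    exact (hVout _ hj).2.1
  have hgood : ∀ᶠ ε : ℝ in 𝓝[>] 0, Good ε := by
    have e1 : ∀ᶠ ε : ℝ in 𝓝[>] 0, ∀ j, 0 < ρε ε j := by
      rw [Filter.eventually_all]
      intro j
      exact (tendsto_aff (ρ₀ j) (θ j)).eventually_const_lt (hx (blk j))
    filter_upwards [e1, self_mem_nhdsWithin] with ε hε hε0
    refine ⟨hε, ?_⟩
    intro j j' hne hb heq
    have hε1 : (0 : ℝ) < ε := hε0
    have hll : lev j ≠ lev j' := fun h => hne (hinj j j' hb h)
    have heq' : r (blk j) + ε * (if blk j ∈ V then -((lev j : ℝ) + 1) else 0) =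
      r (blk j') + ε * (if blk j' ∈ V then -((lev j' : ℝ) + 1) else 0) := heq
    rw [← hb] at heq'
    by_cases hbV : blk j ∈ V
    · rw [if_pos hbV, if_pos hbV] at heq'
      have h7 : ε * (-((lev j : ℝ) + 1)) = ε * (-((lev j' : ℝ) + 1)) := by linarith
      have h8 := mul_left_cancel₀ hε1.ne' h7
      apply hll
      have h9 : (lev j : ℝ) = (lev j' : ℝ) := by linarith
      exact_mod_cast h9
    · have hp : (x (blk j)).2 = 0 := (hVout _ hbV).2.2
      have h7 := hlev j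
      have h8 := hlev j'
      rw [← hb, hp] at h8
      rw [hp] at h7
      omega
  -- a maximal cone for every face
  have hfc0 : ∀ σ, ∃ G, σ ∈ Φ.faces → G ∈ Φ.mx ∧ σ ⊆ G := by
    intro σ
    by_cases hσ : σ ∈ Φ.faces
    · obtain ⟨G, hG, hG'⟩ := Φ.mem_faces.1 hσ
      exact ⟨G, fun _ => ⟨hG, hG'⟩⟩
    · exact ⟨∅, fun h => (hσ h).elim⟩
  choose fc hfc using hfc0
  have hid : ∀ ε, Good ε → ∃ q : (Fin k → Fin N) → Finset (Fin k → ℤ) → Polynomial ℝ,
      (∀ c ∈ sel blk, ∀ σ, (q c σ).natDegree ≤ k + 1) ∧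
      (∀ c ∈ sel blk, ∀ σ, q c σ ≠ 0 → σ ∈ Φ.faces ∧
        (∃ d, IsClassR Φ (fun i => ρε ε (c i)) σ d) ∧ ¬ KillR Φ V Z σ) ∧
      ∀ s : ℝ, 0 < s → ∀ F : (Fin k → Multiset ℝ) → ℝ, Ext Φ (WR Φ v Z s) F →
        F (ms blk (ρε ε)) = ∑ c ∈ sel blk, ∑ σ ∈ Φ.faces,
          (q c σ).eval (1 / (s + psi Z (fc σ) (fun i => ρε ε (c i)))) := fun ε hε =>
    ident h1 h4 ht hv hfc hsurj hε.1 hε.2 (hVρ ε)
  let q : ℝ → (Fin k → Fin N) × Finset (Fin k → ℤ) → Polynomial ℝ := fun ε y =>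
    if h : Good ε then Classical.choose (hid ε h) y.1 y.2 else 0
  have hqg : ∀ ε (h : Good ε) y, q ε y = Classical.choose (hid ε h) y.1 y.2 := fun ε h y =>
    dif_pos h
  -- the displacements
  let δ : (Fin k → Fin N) → Fin k → ℝ := fun c i => if i ∈ V then (lev (c i) : ℝ) + 1 else 0
  have hρc : ∀ ε, ∀ c ∈ sel blk, (fun i => ρε ε (c i)) = r - ε • δ c := by
    intro ε c hc
    rw [mem_sel] at hc
    funext i
    change r (blk (c i)) + ε * (if blk (c i) ∈ V then -((lev (c i) : ℝ) + 1) else 0) =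
      r i - ε * (if i ∈ V then (lev (c i) : ℝ) + 1 else 0)
    rw [hc i]
    split_ifs <;> ring
  let PR : ℝ → Prop := fun a => ∃ S ⊆ Z, multI Φ Z S V r a ≠ 0
  let G : Finset ℝ := (Φ.faces.image fun σ => psi Z (fc σ) r).filter PR
  have hG : ∀ a ∈ G, 0 < a ∧ PR a := by
    intro a ha
    obtain ⟨ha1, ha2⟩ := Finset.mem_filter.1 ha
    obtain ⟨σ, hσ, rfl⟩ := Finset.mem_image.1 ha1
    exact ⟨psi_pos hx ht (hfc σ hσ).1, ha2⟩
  have hkill : ∀ᶠ ε : ℝ in 𝓝[>] 0, ∀ c ∈ sel blk, ∀ (σ : Finset (Fin k → ℤ))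
      (d : (Fin k → ℤ) → ℝ), IsClassR Φ (r - ε • δ c) σ d → ¬ KillR Φ V Z σ →
      ∀ F ∈ Φ.mx, σ ⊆ F → PR (psi Z F r) := by
    rw [Filter.eventually_all_finset]
    intro c hc
    obtain ⟨ε₀, hε₀, hh⟩ := h2 k Φ hcoh Z V r (δ c) ht.2.2.2.2.2.1
      (fun i hi => by
        change 0 < (if i ∈ V then (lev (c i) : ℝ) + 1 else 0)
        rw [if_pos hi]
        positivity)
      (fun i hi => ⟨(hVout i hi).2.1, if_neg hi⟩)
    filter_upwards [Ioo_mem_nhdsGT hε₀] with ε hε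
    intro σ d hσ hk F hF hσF
    exact hh ε hε.1 hε.2 σ d hσ hk F hF hσF
  suffices h : ∃ (m : ℕ) (Q : Polynomial ℝ), ∀ s : ℝ, 0 < s →
      F s (repl x) * ∏ b ∈ G, (s + b) ^ m = Q.eval s by
    obtain ⟨m, Q, hQ⟩ := h
    exact ⟨G, m, Q, hG, hQ⟩
  refine h3 ((Fin k → Fin N) × Finset (Fin k → ℤ)) (sel blk ×ˢ Φ.faces) G (k + 1)
    q (fun ε y => psi Z (fc y.2) (fun i => ρε ε (y.1 i))) (fun y => psi Z (fc y.2) r)
    (fun s => F s (repl x)) ?_ ?_ ?_ ?_ ?_
  · intro ε y hy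
    obtain ⟨hy1, hy2⟩ := Finset.mem_product.1 hy
    by_cases h : Good ε
    · rw [hqg ε h]
      exact (Classical.choose_spec (hid ε h)).1 y.1 hy1 y.2
    · have : q ε y = 0 := dif_neg h
      rw [this]
      simp
  · intro y hy
    obtain ⟨hy1, hy2⟩ := Finset.mem_product.1 hy
    have hF' := (hfc y.2 hy2).1
    have h6 : (fun ε : ℝ => psi Z (fc y.2) (fun i => ρε ε (y.1 i))) =
        fun ε : ℝ => psi Z (fc y.2) r + ε * psi Z (fc y.2) (-δ y.1) := by
      funext ε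
      rw [hρc ε y.1 hy1, sub_eq_add_neg, ← smul_neg,
        psi_add Z (Φ.mx_indep _ hF') (Φ.mx_card _ hF'),
        psi_smul Z (Φ.mx_indep _ hF') (Φ.mx_card _ hF')]
    rw [h6]
    exact tendsto_aff _ _
  · intro y hy
    obtain ⟨hy1, hy2⟩ := Finset.mem_product.1 hy
    exact psi_pos hx ht (hfc y.2 hy2).1
  · filter_upwards [hgood, hkill] with ε hε hε' y hy hne
    obtain ⟨hy1, hy2⟩ := Finset.mem_product.1 hy
    rw [hqg ε hε] at hne
    obtain ⟨h6, ⟨d, hd⟩, h7⟩ := (Classical.choose_spec (hid ε hε)).2.1 y.1 hy1 y.2 hne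
    rw [hρc ε y.1 hy1] at hd
    refine Finset.mem_filter.2 ⟨Finset.mem_image.2 ⟨y.2, hy2, rfl⟩, ?_⟩
    exact hε' y.1 hy1 y.2 d hd h7 _ (hfc y.2 hy2).1 (hfc y.2 hy2).2
  · intro s hs
    have L1 : Tendsto (fun ε : ℝ => F s (ms blk (ρ₀ + ε • θ))) (𝓝[>] 0)
        (𝓝 (F s (ms blk ρ₀))) := (hF s hs).1 N blk ρ₀ θ hsurj fun j => hx (blk j)
    rw [hms] at L1
    refine L1.congr' ?_
    filter_upwards [hgood] with ε hε
    have h6 := (Classical.choose_spec (hid ε hε)).2.2 s hs (F s) (hF s hs)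
    change F s (ms blk (ρε ε)) = _
    rw [h6, Finset.sum_product]
    refine Finset.sum_congr rfl fun c _ => Finset.sum_congr rfl fun σ _ => ?_
    rw [hqg ε hε]

end It

end Mono
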