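import Pool.Agent.Helper4.It.Goals
import Pool.Agent.Helper65.Comp.K4

/-! Packet K4: arithmetic of the classes, integral case included. -/

namespace Mono

namespace It

open Finset Mono.Comp

theorem classMainI (hA : AlgMainV) (hM : MultFormulaI) (hF : BoxFinite) : ClassMainI := by
  classical
  intro n Φ hcoh Z σ V w c hN hw hcl hmult
  set a : ℝ := ∑ t ∈ σ \ Z, c t with hadef
  have hMF := hM n Φ Z (σ ∩ Z) V w hN Finset.inter_subset_right hw a
  rw [hmult] at hMF
  have hterms := (Finset.sum_eq_zero_iff_of_nonneg (fun G _ =>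
    mul_nonneg (Int.natCast_nonneg _) (K4.ellV_nonneg hA Φ hcoh V (G ∪ (σ ∩ Z))))).1 hMF.symm
  set G : Finset (Fin n → ℤ) := σ.filter (fun t => ∀ z : ℤ, c t ≠ z) with hG
  have hGσ : G ⊆ σ := Finset.filter_subset _ _
  have hGface : Φ.IsFace G := hcl.1.subset Φ hGσ
  have hterm := hterms G ((Φ.mem_faces).2 hGface)
  have hcore : G ∪ (σ ∩ Z) = ncore Z σ c := by
    ext t
    simp only [hG, ncore, Finset.mem_union, Finset.mem_filter, Finset.mem_inter]
    tauto
  have hcoreface : Φ.IsFace (ncore Z σ c) := hcl.1.subset Φ (by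
    unfold ncore; exact Finset.filter_subset _ _)
  have hl : (lstarR Z w a G : ℤ) ≠ 0 := by
    have hfin := hF n Z G w a
    have hne : Nonempty {b : Fin n → ℤ // ∃ c : (Fin n → ℤ) → ℝ, (∀ u ∈ G, 0 < c u ∧ c u < 1) ∧
        w + toR b = ∑ u ∈ G, c u • toR u ∧ ∃ z : ℤ, ∑ u ∈ G \ Z, c u - a = z} := by
      have hfr0 : ∀ t ∈ σ, t ∉ G → Int.fract (c t) = 0 := by
        intro t ht htG
        have : ¬ ∀ z : ℤ, c t ≠ z := fun h => htG (by rw [hG]; exact Finset.mem_filter.2 ⟨ht, h⟩)
        push Not at this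
        obtain ⟨z, hz⟩ := this
        rw [hz]; exact Int.fract_intCast z
      refine ⟨⟨fun i => - ∑ t ∈ σ, ⌊c t⌋ * t i, fun u => Int.fract (c u), ?_, ?_, ?_⟩⟩
      · intro u hu
        have hu2 : ∀ z : ℤ, c u ≠ z := (Finset.mem_filter.1 hu).2
        refine ⟨?_, Int.fract_lt_one _⟩
        rcases (Int.fract_nonneg (c u)).lt_or_eq with h | h
        · exact h
        · exfalso
          have h5 : c u = ⌊c u⌋ := by
            have := Int.floor_add_fract (c u)
            linarith
          exact hu2 _ h5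
      · rw [Finset.sum_subset hGσ (f := fun u => Int.fract (c u) • toR u) (by
          intro u hu huG
          simp [hfr0 u hu huG])]
        funext i
        have h1 := congrFun hcl.2.2 i
        simp only [toR_apply, Finset.sum_apply, Pi.smul_apply, smul_eq_mul, Pi.add_apply] at h1 ⊢
        push_cast
        rw [h1, ← sub_eq_add_neg, ← Finset.sum_sub_distrib]
        refine Finset.sum_congr rfl fun t _ => ?_
        have h6 : Int.fract (c t) = c t - ⌊c t⌋ := rfl
        rw [h6]; ring
      · refine ⟨- ∑ t ∈ σ \ Z, ⌊c t⌋, ?_⟩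
        have h7 : ∑ u ∈ G \ Z, Int.fract (c u) = ∑ u ∈ σ \ Z, Int.fract (c u) := by
          refine Finset.sum_subset (Finset.sdiff_subset_sdiff hGσ (Finset.Subset.refl _)) ?_
          intro u hu huG
          refine hfr0 u (Finset.mem_sdiff.1 hu).1 ?_
          intro h8
          exact huG (Finset.mem_sdiff.2 ⟨h8, (Finset.mem_sdiff.1 hu).2⟩)
        rw [h7, hadef, ← Finset.sum_sub_distrib]
        push_cast
        rw [← Finset.sum_neg_distrib]
        refine Finset.sum_congr rfl fun t _ => ?_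
        have h6 : Int.fract (c t) = c t - ⌊c t⌋ := rfl
        rw [h6]; ring
    have : Nat.card {b : Fin n → ℤ // ∃ c : (Fin n → ℤ) → ℝ, (∀ u ∈ G, 0 < c u ∧ c u < 1) ∧
        w + toR b = ∑ u ∈ G, c u • toR u ∧ ∃ z : ℤ, ∑ u ∈ G \ Z, c u - a = z} ≠ 0 :=
      Nat.card_ne_zero.2 ⟨hne, hfin⟩
    unfold lstarR
    exact_mod_cast this
  have hell : ellV Φ V (ncore Z σ c) = 0 := by
    rw [← hcore]
    rcases mul_eq_zero.1 hterm with h | h
    · exact absurd h hl
    · exact h
  exact (hA n Φ hcoh _ hcoreface V).2 hell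

end It

end Mono
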