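import Pool.Agent.Helper4.It.Goals
import Pool.Agent.Helper70.Comp.K9

/-! Packet K9: unkilled classes near `w`. -/

namespace Mono

namespace It

open Finset Filter Topology Mono.Comp

open Mono.Comp.K8 Mono.Comp.K9

/-- K9. -/
theorem nodeKillI (h1 : ClassMainI) (h2 : KillThm) : NodeKillI := by
  classical
  intro n Φ hco Z V w δ hN hδ hV
  have hev : ∀ᶠ ε : ℝ in 𝓝[>] 0, ∀ F ∈ Φ.mx, ∀ u ∈ F, crd F δ u ≠ 0 →
      ∀ z : ℤ, crd F w u - ε * crd F δ u ≠ z := by
    rw [Finset.eventually_all]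
    intro F _
    rw [Finset.eventually_all]
    intro u _
    by_cases hb : crd F δ u = 0
    · exact Eventually.of_forall fun ε h => absurd hb h
    · filter_upwards [eventually_not_int (crd F w u) (crd F δ u) hb] with ε hε _
      exact hε
  obtain ⟨ε₀, hε₀, hsub⟩ := mem_nhdsGT_iff_exists_Ioo_subset.1 hev
  refine ⟨ε₀, hε₀, ?_⟩
  intro ε hε hε' σ c hc hkill F hF hσF
  have hev1 : ∀ u ∈ F, crd F δ u ≠ 0 → ∀ z : ℤ, crd F w u - ε * crd F δ u ≠ z :=
    hsub ⟨hε, hε'⟩ F hF
  have hcrd : ∀ u, crd F (w - ε • δ) u = crd F w u - ε * crd F δ u := by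
    intro u
    rw [sub_eq_add_neg, crd_add (Φ.mx_indep F hF) (Φ.mx_card F hF),
      crd_neg (Φ.mx_indep F hF) (Φ.mx_card F hF), crd_smul (Φ.mx_indep F hF) (Φ.mx_card F hF)]
    ring
  obtain ⟨hc1, hc2⟩ := crd_of_isClassR Φ _ hc hF hσF
  -- an integral coordinate does not move
  have hint : ∀ u ∈ F, ∀ z : ℤ, crd F (w - ε • δ) u = z → crd F (w - ε • δ) u = crd F w u := by
    intro u hu z hz
    rw [hcrd] at hz ⊢
    by_cases hb : crd F δ u = 0
    · rw [hb]
      ring
    · exact absurd hz (hev1 u hu hb z)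
  have hss : sgR w F ⊆ σ := by
    intro u hu
    by_contra hus
    have h3 := hint u (sgR_subset w F hu) 0 (by rw [hc2 u hus]; simp)
    rw [hc2 u hus] at h3
    exact mem_sgR.1 hu h3.symm
  have hcls := isClass_sgR Φ w hF
  have hpsi : psi Z F w = ∑ t ∈ sgR w F \ Z, crd F w t := by
    unfold psi
    symm
    refine Finset.sum_subset (Finset.sdiff_subset_sdiff (sgR_subset w F)
      (Finset.Subset.refl _)) fun t ht ht' => ?_
    by_contra h
    exact ht' (mem_sdiff.2 ⟨mem_sgR.2 h, (mem_sdiff.1 ht).2⟩)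
  · refine ⟨sgR w F ∩ Z, inter_subset_right, fun hm => ?_⟩
    have hstar : StarV Φ V (ncore Z (sgR w F) (crd F w)) := by
      refine h1 n Φ hco Z (sgR w F) V w (crd F w) hN (fun i hi => (hV i hi).1) hcls ?_
      rw [← hpsi]
      exact hm
    refine hkill (h2 n Φ Z V w (w - ε • δ) (sgR w F) σ (crd F w) c hcls hc hss ?_ ?_ ?_ hstar)
    · intro i hi
      have := mul_pos hε (hδ i hi)
      simp only [Pi.sub_apply, Pi.smul_apply, smul_eq_mul]
      linarith
    · intro i hi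
      refine ⟨(hV i hi).1, ?_⟩
      simp only [Pi.sub_apply, Pi.smul_apply, smul_eq_mul]
      rw [(hV i hi).1, (hV i hi).2]
      ring
    · intro t ht z hz'
      have h3 := hint t (hσF ht) z (by rw [hc1 t ht]; exact hz')
      rw [hc1 t ht] at h3
      refine ⟨mem_sgR.2 ?_, h3⟩
      rw [← h3]
      exact hc.2.1 t ht

end It

end Mono
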