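import Pool.Agent.Helper4.It.Goals
import Pool.Agent.Helper53.Comp.MainS

/-! Assembly of the closure theorem. -/

namespace Mono

namespace It

open Finset Filter Topology Mono.Comp

theorem ratio_prod0 (G Gt : Finset ℝ) (m mt : ℕ) (hG : G ⊆ Gt)
    (hm : m ≤ mt) : ∃ P : Polynomial ℝ, ∀ s : ℝ,
      ∏ b ∈ Gt, (s + b) ^ mt = (∏ b ∈ G, (s + b) ^ m) * P.eval s := by
  classical
  refine ⟨(∏ b ∈ Gt \ G, (Polynomial.X + Polynomial.C b) ^ m) *
    ∏ b ∈ Gt, (Polynomial.X + Polynomial.C b) ^ (mt - m), fun s => ?_⟩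
  simp only [Polynomial.eval_mul, Polynomial.eval_prod, Polynomial.eval_pow,
    Polynomial.eval_add, Polynomial.eval_X, Polynomial.eval_C]
  have e1 : ∏ b ∈ Gt, (s + b) ^ mt = (∏ b ∈ Gt, (s + b) ^ m) * ∏ b ∈ Gt, (s + b) ^ (mt - m) := by
    rw [← Finset.prod_mul_distrib]
    refine Finset.prod_congr rfl fun b _ => ?_
    rw [← pow_add]
    congr 1
    omega
  have e2 : ∏ b ∈ Gt, (s + b) ^ m = (∏ b ∈ Gt \ G, (s + b) ^ m) * ∏ b ∈ G, (s + b) ^ m :=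
    (Finset.prod_sdiff hG).symm
  rw [e1, e2]
  ring

theorem closure (hU : UniFan) (hFB : FanB) (hEE : ExtExistsT) (hRE : RedExists)
    (hCP : CoefPoleQ) (hC : CollectT) (hNL : NodeLimI) (hMo : MoebiusT) (hPR : PoleR)
    (hPR2 : PoleR2) (hL : LinkI) (hZQ : ZQComp) : Closure := by
  classical
  intro k A bb hne hnn h0 hb hlin g E hg hE
  have hk : 0 < k := by
    rcases Nat.eq_zero_or_pos k with h | h
    · subst h
      obtain ⟨v, hv⟩ := hne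
      exact absurd (by rwa [Subsingleton.elim v 0] at hv) h0
    · exact h
  refine ⟨fun I => hU _ _ (hne.image _), ?_⟩
  intro T hT
  obtain ⟨hgood, hZeq⟩ := hZQ k A g T hne h0 hnn hg (fun I => (hT I).2)
  refine ⟨hgood, ?_⟩
  intro e₀ he₀ s₀ hs₀
  rw [hZeq e₀ he₀] at hs₀ ⊢
  obtain ⟨Φ, Z, hTri, hcoh, hB⟩ := hFB k A bb hne hnn h0 hb hlin
  obtain ⟨red, hred⟩ := hRE
  -- the functions
  have hex : ∀ (s : ℝ) (D : Fin k → ℕ), ∃ F : (Fin k → Multiset ℝ) → ℝ, 0 < s → (∀ i, 0 < D i) →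
      Ext Φ (WR Φ (vT e₀ D) Z s) F ∧
      ∀ (n : ℕ) (blk : Fin n → Fin k) (N : Fin n → ℕ), Function.Surjective blk → (∀ j, 0 < N j) →
        (∀ i, blkGcd blk N i = D i) → ∀ T : Fan n, Adapted (A.image (lift blk N)) T →
        ∀ ρ : Fin n → ℝ, (∀ j, 0 < ρ j) →
        αT e₀ s * ZrealT e₀ (fun j => (N j : ℝ) * ρ j) (A.image (lift blk N)) T s =
          βT e₀ * ∏ j, ((N j : ℝ) * ρ j)⁻¹ -
            γT e₀ s * ((∏ j, (N j : ℝ)⁻¹) * F (ms blk ρ)) := by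
    intro s D
    by_cases h : 0 < s ∧ ∀ i, 0 < D i
    · obtain ⟨F, h1, h2⟩ := hEE k A Z Φ hk hTri e₀ he₀ D h.2 s h.1
      exact ⟨F, fun _ _ => ⟨h1, fun n blk N a1 a2 a3 T a4 ρ a5 => by
        convert h2 n blk N a1 a2 a3 T (by convert a4) ρ a5⟩⟩
    · exact ⟨fun _ => 0, fun h1 h2 => absurd ⟨h1, h2⟩ h⟩
  choose F hF using hex
  obtain ⟨C₀, B, hY⟩ := hC red hred k A Z Φ hk hTri g hg T (fun I => (hT I).1) e₀ he₀ F
    (fun s hs D hD => hF s D hs hD)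
  -- the terms
  have hnode : ∀ (e : Fin k → ℕ) (x : Fin k → ℝ × ℕ), ∃ (G : Finset ℝ) (m : ℕ)
      (Q : Polynomial ℝ), (∀ i, 0 < e i) → (∀ i, 0 < (x i).1) →
      (∀ a ∈ G, 0 < a ∧
        ∃ S ⊆ Z, multI Φ Z S (Vset e x) (fun i => (x i).1) a ≠ 0) ∧
      ∀ s : ℝ, 0 < s → FE (F s) e (repl x) * ∏ b ∈ G, (s + b) ^ m = Q.eval s := by
    intro e x
    by_cases h : (∀ i, 0 < e i) ∧ ∀ i, 0 < (x i).1
    · obtain ⟨G, m, Q, h1⟩ := hNL k A Z Φ hk hTri hcoh e x h.2 (vTE e₀ e)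
        (hMo.1 k e₀ e (Vset e x) (fun i hi => by
          have : ¬ ¬ (e i = 1 ∧ (x i).1 = 1 ∧ (x i).2 = 0) := by
            simpa [Vset] using hi
          exact (not_not.1 this).1)) (fun s => FE (F s) e)
        (fun s hs => hMo.2 k e₀ Z Φ s (F s) (fun D hD => (hF s D hs hD).1) e h.1)
      exact ⟨G, m, Q, fun _ _ => h1⟩
    · exact ⟨∅, 0, 0, fun h1 h2 => absurd ⟨h1, h2⟩ h⟩
  choose Gf mf Qf hQ using hnode
  set J : Finset ((Fin k → ℕ) × (Fin k → ℝ × ℕ)) :=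
    (Fintype.piFinset (fun _ : Fin k => Icc 1 B)).biUnion (fun e =>
      (Fintype.piFinset (fun i => (coefQ red (g i) (e i)).support)).image (fun x => (e, x)))
    with hJ
  have hmemJ : ∀ e x, (e, x) ∈ J ↔ (∀ i, e i ∈ Icc 1 B) ∧
      ∀ i, coefQ red (g i) (e i) (x i) ≠ 0 := by
    intro e x
    rw [hJ, Finset.mem_biUnion]
    constructor
    · rintro ⟨e', he', h⟩
      obtain ⟨x', hx', h2⟩ := Finset.mem_image.1 h
      rw [Prod.mk.injEq] at h2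
      obtain ⟨rfl, rfl⟩ := h2
      refine ⟨Fintype.mem_piFinset.1 he', fun i => ?_⟩
      exact Finsupp.mem_support_iff.1 (Fintype.mem_piFinset.1 hx' i)
    · rintro ⟨h1, h2⟩
      refine ⟨e, Fintype.mem_piFinset.2 h1, Finset.mem_image.2 ⟨x, ?_, rfl⟩⟩
      exact Fintype.mem_piFinset.2 fun i => Finsupp.mem_support_iff.2 (h2 i)
  have hpos : ∀ e x, (e, x) ∈ J → (∀ i, 0 < e i) ∧ ∀ i, 0 < (x i).1 := by
    intro e x h
    obtain ⟨h1, h2⟩ := (hmemJ e x).1 h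
    refine ⟨fun i => ?_, fun i => (hCP red hred (g i) (hg i) (e i) (x i) (h2 i)).1⟩
    have := (Finset.mem_Icc.1 (h1 i)).1
    omega
  -- the sum over `J`
  have hsumJ : ∀ s : ℝ, ∑ e ∈ Fintype.piFinset (fun _ : Fin k => Icc 1 B),
        ∑ x ∈ Fintype.piFinset (fun i => (coefQ red (g i) (e i)).support),
          (∏ i, coefQ red (g i) (e i) (x i)) * FE (F s) e (repl x) =
      ∑ y ∈ J, (∏ i, coefQ red (g i) (y.1 i) (y.2 i)) * FE (F s) y.1 (repl y.2) := by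
    intro s
    rw [hJ, Finset.sum_biUnion]
    · refine Finset.sum_congr rfl fun e _ => ?_
      rw [Finset.sum_image]
      intro x _ x' _ h
      exact (Prod.mk.injEq _ _ _ _ ▸ h).2
    · intro e _ e' _ hne'
      rw [Function.onFun, Finset.disjoint_left]
      intro y hy hy'
      obtain ⟨x, _, h1⟩ := Finset.mem_image.1 hy
      obtain ⟨x', _, h2⟩ := Finset.mem_image.1 hy'
      apply hne'
      rw [← h2, Prod.mk.injEq] at h1
      exact h1.1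
  set Gt : Finset ℝ := J.biUnion fun y => Gf y.1 y.2 with hGt
  set mt : ℕ := ∑ y ∈ J, mf y.1 y.2 with hmt
  have hsub : ∀ y ∈ J, Gf y.1 y.2 ⊆ Gt := fun y hy =>
    Finset.subset_biUnion_of_mem (fun y => Gf y.1 y.2) hy
  have hle : ∀ y ∈ J, mf y.1 y.2 ≤ mt := by
    intro y hy
    rw [hmt]
    exact Finset.single_le_sum (f := fun y => mf y.1 y.2) (fun _ _ => Nat.zero_le _) hy
  have hR : ∀ y : (Fin k → ℕ) × (Fin k → ℝ × ℕ), ∃ P : Polynomial ℝ, y ∈ J → ∀ s : ℝ,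
      ∏ b ∈ Gt, (s + b) ^ mt = (∏ b ∈ Gf y.1 y.2, (s + b) ^ mf y.1 y.2) * P.eval s := by
    intro y
    by_cases hy : y ∈ J
    · obtain ⟨P, hP⟩ := ratio_prod0 _ _ _ _ (hsub y hy) (hle y hy)
      exact ⟨P, fun _ => hP⟩
    · exact ⟨0, fun h => absurd h hy⟩
  choose Rf hRf using hR
  have hprod0 : ∃ P : Polynomial ℝ, ∀ s : ℝ, ∏ b ∈ Gt, (s + b) ^ mt = P.eval s :=
    ⟨∏ b ∈ Gt, (Polynomial.X + Polynomial.C b) ^ mt, fun s => by
      simp [Polynomial.eval_prod]⟩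
  obtain ⟨P₀, hP₀⟩ := hprod0
  -- the sum is a rational function with poles in `-Gt`
  have hsum : ∀ s : ℝ, 0 < s → (∑ y ∈ J, (∏ i, coefQ red (g i) (y.1 i) (y.2 i)) *
        FE (F s) y.1 (repl y.2)) * ∏ b ∈ Gt, (s + b) ^ mt =
      (∑ y ∈ J, Polynomial.C (∏ i, coefQ red (g i) (y.1 i) (y.2 i)) *
        (Qf y.1 y.2 * Rf y)).eval s := by
    intro s hs
    simp only [Polynomial.eval_mul, Polynomial.eval_C, Polynomial.eval_finsetSum]
    rw [Finset.sum_mul]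
    refine Finset.sum_congr rfl fun y hy => ?_
    obtain ⟨a1, a2⟩ := hpos y.1 y.2 hy
    rw [← (hQ y.1 y.2 a1 a2).2 s hs, hRf y hy s]
    ring
  -- detection
  have hdet : ∀ β ∈ Gt, Complex.exp (2 * Real.pi * Complex.I * (-(β : ℂ))) ∈ compEig A bb E := by
    intro β hβ
    obtain ⟨y, hy, hβy⟩ := Finset.mem_biUnion.1 hβ
    obtain ⟨a1, a2⟩ := hpos y.1 y.2 hy
    obtain ⟨_, S, hS, hm⟩ := (hQ y.1 y.2 a1 a2).1 β hβy
    obtain ⟨K, hK⟩ := hL k A Z S Φ bb hTri hB hb hS (Vset y.1 y.2) (fun i => (y.2 i).1) β hm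
    refine ⟨K, Vset y.1 y.2 \ K,
      fun i => Complex.exp (2 * Real.pi * Complex.I * (-((y.2 i).1 : ℂ))), Finset.sdiff_disjoint,
      ?_, hK⟩
    intro i hi
    have hiV : i ∈ Vset y.1 y.2 := (Finset.mem_sdiff.1 hi).1
    obtain ⟨h1, h2⟩ := (hmemJ y.1 y.2).1 hy
    obtain ⟨b1, b2, b3⟩ := hCP red hred (g i) (hg i) (y.1 i) (y.2 i) (h2 i)
    rcases hE i (y.1 i) (a1 i) _ b2 with h | ⟨c1, c2, c3⟩
    · exact h
    · exfalso
      have hr1 : (y.2 i).1 = 1 := by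
        have h3 : ((y.2 i).1 : ℂ) = 1 := by linear_combination -c2
        exact_mod_cast h3
      have hp : 0 < (y.2 i).2 := by
        by_contra hcon
        have h4 : (y.2 i).2 = 0 := by omega
        unfold Vset at hiV
        exact (Finset.mem_filter.1 hiV).2 ⟨c1, hr1, h4⟩
      have h5 := b3 hp
      rw [c2] at h5
      omega
  by_cases he1 : e₀ = 1
  · -- the zeta function itself
    subst he1
    have hY1 : ∀ s : ℝ, 0 < s → (ZTs A g T 1).denom.eval (s : ℂ) ≠ 0 ∧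
        RatFunc.eval (RingHom.id ℂ) (s : ℂ) (ZTs A g T 1) = (((C₀ - s * ∑ y ∈ J,
          (∏ i, coefQ red (g i) (y.1 i) (y.2 i)) * FE (F s) y.1 (repl y.2)) / (s + 1) : ℝ) : ℂ) := by
      intro s hs
      have h := hY s hs
      rw [hsumJ] at h
      simpa [αT, βT, γT] using h
    have hpoly : ∀ s : ℝ, 0 < s → ((C₀ - s * ∑ y ∈ J,
          (∏ i, coefQ red (g i) (y.1 i) (y.2 i)) * FE (F s) y.1 (repl y.2)) / (s + 1)) * (s + 1) *
        ∏ b ∈ Gt, (s + b) ^ mt =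
        (Polynomial.C C₀ * P₀ - Polynomial.X * ∑ y ∈ J,
          Polynomial.C (∏ i, coefQ red (g i) (y.1 i) (y.2 i)) * (Qf y.1 y.2 * Rf y)).eval s := by
      intro s hs
      have hs1 : s + 1 ≠ 0 := by positivity
      rw [div_mul_cancel₀ _ hs1, sub_mul, mul_assoc s, hsum s hs, hP₀ s]
      simp only [Polynomial.eval_sub, Polynomial.eval_mul, Polynomial.eval_C, Polynomial.eval_X]
    obtain ⟨P₁, hP₁⟩ := ratio_prod Gt (insert 1 Gt) mt (mt + 1) (Finset.subset_insert _ _)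
      (Finset.mem_insert_self _ _) le_rfl
    obtain ⟨β, hβ, hβs⟩ := hPR (ZTs A g T 1) _ (insert 1 Gt) (mt + 1)
      ((Polynomial.C C₀ * P₀ - Polynomial.X * ∑ y ∈ J,
          Polynomial.C (∏ i, coefQ red (g i) (y.1 i) (y.2 i)) * (Qf y.1 y.2 * Rf y)) * P₁)
      hY1 (fun s hs => by
        rw [hP₁ s, Polynomial.eval_mul, ← hpoly s hs]
        ring) s₀ hs₀
    by_cases hβt : β ∈ Gt
    · left
      rw [hβs]
      exact hdet β hβt
    · have hβ1 : β = 1 := by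
        rcases Finset.mem_insert.1 hβ with h | h
        · exact h
        · exact absurd h hβt
      subst hβ1
      right
      refine ⟨rfl, by rw [hβs]; push_cast; ring, ?_⟩
      exact hPR2 (ZTs A g T 1) _ Gt mt _ hY1 hpoly hβt
  · -- the twisted zeta functions
    have hY1 : ∀ s : ℝ, 0 < s → (ZTs A g T e₀).denom.eval (s : ℂ) ≠ 0 ∧
        RatFunc.eval (RingHom.id ℂ) (s : ℂ) (ZTs A g T e₀) = ((-∑ y ∈ J,
          (∏ i, coefQ red (g i) (y.1 i) (y.2 i)) * FE (F s) y.1 (repl y.2) : ℝ) : ℂ) := by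
      intro s hs
      have h := hY s hs
      rw [hsumJ] at h
      simpa [αT, βT, γT, he1] using h
    obtain ⟨β, hβ, hβs⟩ := hPR (ZTs A g T e₀) _ Gt mt
      (-∑ y ∈ J, Polynomial.C (∏ i, coefQ red (g i) (y.1 i) (y.2 i)) * (Qf y.1 y.2 * Rf y))
      hY1 (fun s hs => by
        rw [neg_mul, hsum s hs, Polynomial.eval_neg]) s₀ hs₀
    left
    rw [hβs]
    exact hdet β hβ

end It

end Mono
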