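import Pool.Agent.Helper33.Mono.All
import Pool.Agent.Helper10.Mono.NewtonFan
import Pool.Agent.Helper90.Mono.FanB
import Pool.Agent.Helper80.Mono.IdxProj
import Pool.Agent.Helper75.Mono.CellVol
import Pool.Agent.Helper20.Mono.CellDecomp
import Pool.Agent.Helper49.Comp.K1
import Pool.Agent.Helper86.Comp.K2
import Pool.Agent.Helper57.Comp.K3
import Pool.Agent.Helper65.Comp.K4
import Pool.Agent.Helper89.Comp.K5
import Pool.Agent.Helper49.Comp.K6
import Pool.Agent.Helper11.Comp.K7
import Pool.Agent.Helper70.Comp.K8
import Pool.Agent.Helper70.Comp.K9
import Pool.Agent.Helper85.Comp.P1
import Pool.Agent.Helper89.Comp.P2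
import Pool.Agent.Helper33.Comp.P4
import Pool.Agent.Helper37.Comp.P5
import Pool.Agent.Helper22.Comp.P6
import Pool.Agent.Helper65.Comp.P7
import Pool.Agent.Helper7.Comp.P8
import Pool.Agent.Helper62.Comp.P9
import Pool.Agent.Helper84.Comp.P10
import Pool.Agent.Helper9.Comp.G1
import Pool.Agent.Helper63.Comp.G2a
import Pool.Agent.Helper40.Comp.G2b
import Pool.Agent.Helper56.Comp.G3
import Pool.Agent.Helper32.Comp.G4
import Pool.Agent.Helper14.Comp.G5
import Pool.Agent.Helper5.Comp.G6
import Pool.Agent.Helper77.Comp.G7
import Pool.Agent.Helper53.Comp.G8
import Pool.Agent.Helper60.Comp.G9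
import Pool.Agent.Helper13.Comp.G11
import Pool.Agent.Helper5.Comp.C1
import Pool.Agent.Helper53.Comp.C2
import Pool.Agent.Helper28.Comp.C3
import Pool.Agent.Helper28.Comp.C4
import Pool.Agent.Helper28.Comp.C5
import Pool.Agent.Helper37.Comp.C6
import Pool.Agent.Helper87.Comp.C7
import Pool.Agent.Helper45.Comp.A1
import Pool.Agent.Helper36.Comp.A2
import Pool.Agent.Helper87.Comp.A3
import Pool.Agent.Helper67.Comp.A4
import Pool.Agent.Helper25.Comp.A5
import Pool.Agent.Helper53.Comp.Final

/-!
# The local topological monodromy conjecture for nondegenerate compositions of plane curve germs and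
products of linear forms

Let `P ≠ 0` be a polynomial in `k` variables with `P(0) = 0`, Newton nondegenerate at the origin;
there is no hypothesis on its monomials.  Let `g_1, …, g_k` be germs of holomorphic functions in
separate variables, each of which is

* the equation of any plane curve germ, reduced or not (`Germ.curve`), given by the dual graph of an
  embedded resolution with at least one blowing up, or
* a product of powers of linear forms in `d` variables (`Germ.arr`), for example a power of a
  coordinate (`d = m = 1`) or a central hyperplane arrangement.

The theorem is the local topological monodromy conjecture for `f = P(g_1, …, g_k)`.  The function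
`f` is in general very degenerate with respect to its Newton polyhedron (in every system of
coordinates), and its singularities are in general not isolated.  Examples: all
`f(x, y) + g(z, w)`, all suspensions `f(x, y) + z_1^{a_1} + … + z_r^{a_r}` of plane curve germs,
all `f(x,y)^a g(z,w)^b + h(u,v)^c + …`, and sums, products, … of arrangements.

## The expressions

* `ZF (expo P) strata T` is the local topological zeta function of `f` at the origin.  Let
  `h_i : Y_i → X_i` be the embedded resolution of `g_i`.  Near a point of a stratum over the origin,
  on which exactly the components with numerical data `(N_j, ν_j)` (the list of the stratum) meet,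
  `g_i = ∏ y_j^{N_j}` and the form is `∏ y_j^{ν_j - 1} dy`, in suitable coordinates.  So near a
  point of a product of strata, `f = P(∏ y_{1j}^{N_{1j}}, …, ∏ y_{kj}^{N_{kj}})`.  This function is
  Newton nondegenerate, because the monomial map is a submersion of tori; its exponents are
  `chartA (expo P) D`.  The formula of Denef and Loeser (with the form `∏ y^{ν-1} dy`) is `ZDLw`,
  and the zeta function is the sum over the products of strata, each one with its Euler
  characteristic.
* `Germ.eig g_i` is the set of the eigenvalues of the monodromy on the *reduced* cohomology of the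
  Milnor fibres of `g_i` at the points of `g_i = 0` near the origin that are detected by A'Campo's
  formula: at the origin and at the points of multiple branches for curves; at general points of the
  intersections `⋂_{h ∈ F} ker v_h` for products of linear forms.
* `multS (expo P) K b V lam t₀`.  Let `x_i` be points with `g_i(x_i) = 0` for `i ∉ K`, and
  `g_i(x_i) = c_i t^{b_i}` for `i ∈ K` (`c_i` general constants, `t → 0`), and let `G_i` be the
  restriction of `g_i` to a small ball with centre `x_i` (the Milnor fibration).  The direct image of
  the constant sheaf under `G_i` is the direct sum of the constant sheaf and of the extensions by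
  zero `j_! H` of the local systems `H` of the reduced cohomology of the Milnor fibre, up to shift.
  Hence the nearby cycles of `f = P(g_1, …, g_k)` contain, as direct summands, the nearby cycles of
  `P` with coefficients in the exterior product of `j_! L_i`, `i ∈ V`, where `L_i` is the part of a
  local system as above with eigenvalue `lam i ∈ Germ.eig g_i`, and of constant sheaves, `i ∉ V`.
  Up to sign and up to the positive factor `∏ rank L_i`, `multS` is the multiplicity of `t₀` in
  the alternating sum of the cohomology of these nearby cycles, integrated over the points of the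
  slice `x_i = c_i t^{b_i}` (`i ∈ K`), `|x_i| < t^{b_i}` (`i ∉ K`) of `P = 0` with respect to the
  Euler characteristic (formula of A'Campo and Varchenko with coefficients: a divisor of
  the toric modification with primitive conormal vector `κ` and multiplicity `N` contributes its
  Euler characteristic, if `t₀^N = ∏_{i ∈ V} lam_i^{κ_i}`).  For `V = ∅` it is the multiplicity of
  `t₀` in the monodromy zeta function of `P` at the origin (`K = ∅`, Varchenko's formula), or of the
  slice (if `P` does not vanish on `ℂ^K` there is no face and `multS = 0`).  So if `multS ≠ 0` for
  one choice of `K`, `V` and `lam i ∈ Germ.eig g_i`, then `t₀` is an eigenvalue of the monodromy of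
  `f` on the cohomology of the Milnor fibre at a point of `f = 0` arbitrarily near the origin.
* `b` is a vector of positive numbers, linearly independent over `ℚ`.

The theorem: for all products of strata there exist adapted fans, and for all of them every pole
`s₀` of the zeta function of `f` is an integer (then `1 = exp(2 π i s₀)` is an eigenvalue on
`H^0`), or `exp(2 π i s₀)` is an eigenvalue of the monodromy at a point near the origin, detected
by `multS ≠ 0`.

For `k = 1`, `P = t`: the theorem for plane curves (Loeser) and central hyperplane arrangements
(Budur–Mustaţă–Teitler).  If all `g_i` are coordinates: nondegenerate `f`.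
-/

namespace Mono.It.CompositionOld

open Mono Mono.Comp

theorem result {k : ℕ} (P : MvPolynomial (Fin k) ℂ) (hP : P ≠ 0) (h0 : P.coeff 0 = 0)
    (g : Fin k → Germ) (b : Fin k → ℝ) (hb : ∀ i, 0 < b i) (hlin : LinearIndependent ℚ b) :
    (∀ I : (i : Fin k) → Fin (g i).strata.length,
      ∃ T : Fan (dimD fun i => ((g i).strata.get (I i)).2),
        Adapted (chartA (expo P) fun i => ((g i).strata.get (I i)).2) T) ∧
    ∀ T : ∀ I : (i : Fin k) → Fin (g i).strata.length,
      Fan (dimD fun i => ((g i).strata.get (I i)).2),
    (∀ I, Adapted (chartA (expo P) fun i => ((g i).strata.get (I i)).2) (T I)) →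
    ∀ s₀ : ℂ, (ZF (expo P) (fun i => (g i).strata) T).denom.eval s₀ = 0 →
      (∃ z : ℤ, s₀ = z) ∨
      ∃ (K V : Finset (Fin k)) (lam : Fin k → ℂ), Disjoint V K ∧ (∀ i ∈ V, lam i ∈ (g i).eig) ∧
        multS (expo P) K b V lam (Complex.exp (2 * Real.pi * Complex.I * s₀)) ≠ 0 := by
  have hS := spanT
  have hSC := starCoverT
  have hW := wallT hS hSC
  have hB := bdryT hS hSC
  have hK := kFormula hS hW hB idxPos idxWall idxBdry
  have hL := lowDegree hK
  have hPV := pairVanish hL
  have hLO := laplaceOrthant hS hW hB idxPos idxWall idxBdry
  have hPr := primalAssembly idxPos hS hK hLO dualLattice (sideDual hS hSC) (sidePrimal hS hSC)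
  have hSCt := simplexCount idxPos
  have hNV := nvolSum hSCt
  have hZW := zwIdentity hPr hK
  have hDF := dualFan fanOfGeneric genericHeights coneGen
  have hCV := cellVol cellDecomp hSCt idxProj
  have hA := algMainV hS hSC
  have hMF := multFormulaR (boxCountR idxPos) hS
  have hCM := classMainR hA hMF boxFinite
  have hKT := killThm hPV
  have hCL := classLimitR hL
  have hLW := limitWR hCL killZeroR
  have hNK := nodeKill hCM hKT
  have hLF := liftFan liftCrd
  have hCF := chartFormula (faceSumR hNV) hLF liftCrd liftIdx liftVol partFrac hZW
  have hEx := extExists hCF genDir zrealCont hDF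
  have hER := extRec ddsRec genDir
  have hRM := redMulti hER
  have hMo := moebiusV volHeight
  have hNL := nodeLim hLW hNK limLemma genDir hMo
  have hCo := collect zEvalR hMo hRM
  have hM := mainSMC fanB hDF hEx redExists coefPole hCo hNL hMo poleR (link hCV)
  have hC := curveSMC blowTree blowNum treeIneq vertexRel sameRatio curvePole curveOne rupture
  have hAr := arrSMC arrRank crapo arrRec arrPole
  exact main hM hC hAr k P hP h0 g b hb hlin

end Mono.It.CompositionOld
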