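import Pool.Agent.Helper53.Comp.Defs

/-!
# Iterated nondegenerate compositions: resolution data

A germ `g` of a holomorphic function is given by the strata over the origin of (the divisor of) an
embedded resolution.

* `QStratum`    : a stratum over the origin: its weight, and the list of the numerical data
                  `(N, ν)` of the components of the divisor of `g` that contain it.  The weight is
                  the Euler characteristic of the stratum, divided by the product of the numbers
                  `ν` of the components with `N = 0` (zeros of the Jacobian determinant only) which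
                  contain it;
* `ZQ g e`      : the (twisted) local topological zeta function: the sum over the strata such that
                  `e` divides all `N`;
* `SMCQ g E`    : the poles `z` of all `ZQ g e` satisfy `exp (2 π i z) ∈ E`, except perhaps a
                  simple pole `-1` of `ZQ g 1`;
* `Unimod T`    : the fan is unimodular (regular);
* `compStrata A g T` : the strata over the origin of the resolution of `P (g_1, …, g_k)` (`g_i` in
                  separate variables, `P` Newton nondegenerate, `A = expo P`) obtained from the
                  product of the resolutions of the `g_i` by the toric modifications given by the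
                  unimodular fans `T I`, which refine the dual fans of the Newton polyhedra of the
                  charts;
* `compEig A b E` : the eigenvalues of the monodromy on the reduced cohomology of the Milnor fibres of
                  `P (g_1, …, g_k)` near the origin detected by `multSr`, if `E i` is a set of
                  eigenvalues for `g_i`.
-/

namespace Mono

namespace It

open Finset Mono.Comp

/-- A stratum: its weight, and the numerical data `(N, ν)`, `N > 0`, of the components of the
divisor which contain it. -/
abbrev QStratum : Type := ℚ × List (ℕ × ℕ)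

/-- The strata of `Comp`, with integral Euler characteristics. -/
def toQ (t : Stratum) : QStratum := ((t.1 : ℚ), t.2)

/-- Every stratum lies in at least one component, the numerical data are positive. -/
def GoodQ (g : List QStratum) : Prop := ∀ t ∈ g, t.2 ≠ [] ∧ ∀ q ∈ t.2, 0 < q.1 ∧ 0 < q.2

open Classical in
/-- The twisted local topological zeta function: only the strata whose multiplicities are all
divisible by `e`.  For `e = 1`: the local topological zeta function. -/
noncomputable def ZQ (g : List QStratum) (e : ℕ) : RatFunc ℂ :=
  (g.map (fun t => if ∀ q ∈ t.2, e ∣ q.1 then RatFunc.C (t.1 : ℂ) *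
    (t.2.map (fun q => 1 / (RatFunc.C (q.1 : ℂ) * RatFunc.X + RatFunc.C (q.2 : ℂ)))).prod
    else 0)).sum

/-- The strong monodromy property: the poles of all twisted zeta functions give elements of `E`,
except perhaps a simple pole `-1` of the zeta function itself. -/
def SMCQ (g : List QStratum) (E : Set ℂ) : Prop := ∀ e : ℕ, 0 < e → ∀ z : ℂ,
  (ZQ g e).denom.eval z = 0 → Complex.exp (2 * Real.pi * Complex.I * z) ∈ E ∨
    (e = 1 ∧ z = -1 ∧ (ZQ g e).denom.rootMultiplicity (-1) ≤ 1)

variable {n k : ℕ}

/-- The fan is unimodular: the generators of every maximal cone are a basis of `ℤ^n`. -/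
def Unimod (T : Fan n) : Prop := ∀ δ ∈ T.mx, idx (δ : Set (Fin n → ℤ)) = 1

/-- The number `ν` of the toric divisor of the vector `a`, for the form `∏ y^{ν - 1} dy`. -/
def wtN (ν : Fin n → ℕ) (a : Fin n → ℤ) : ℕ := ∑ i, ν i * (a i).toNat

open Classical in
/-- The cones of dimension `n - dim φ` in the dual cone of the face `φ`. -/
noncomputable def coneF (A : Finset (Fin n → ℤ)) (T : Fan n) (φ : Finset (Fin n → ℤ)) :
    Finset (Finset (Fin n → ℤ)) :=
  T.faces.filter (fun δ => δ.card + dimF φ = n ∧ ∀ a ∈ δ, ∀ v ∈ φ, a ⬝ᵥ v = NA A a)

/-- The numerical data of the toric divisors of the cone `δ` with `N > 0`. -/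
noncomputable def dataF (ν : Fin n → ℕ) (A δ : Finset (Fin n → ℤ)) : List (ℕ × ℕ) :=
  (δ.filter (fun a => NA A a ≠ 0)).toList.map (fun a => ((NA A a).toNat, wtN ν a))

/-- The weight of the complement of the strict transform in the orbit of the cone `δ`; `χ` is the
weight of the stratum on which the chart is centred. -/
noncomputable def wgtF (χ : ℚ) (ν : Fin n → ℕ) (A φ δ : Finset (Fin n → ℤ)) : ℚ :=
  χ * ((-1) ^ dimF φ * (nvol φ : ℚ)) * ∏ a ∈ δ.filter (fun a => NA A a = 0), (wtN ν a : ℚ)⁻¹

/-- The strata over the origin of the toric modification of a chart: for every compact face `φ`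
and every cone `δ` of dimension `n - dim φ` in its dual cone, the complement of the strict
transform in the orbit of `δ` (Euler characteristic `(-1)^dim φ Vol φ`), and, if `dim φ > 0`, the
intersection of the orbit and the strict transform (Euler characteristic `-(-1)^dim φ Vol φ`).  The
other strata have Euler characteristic zero and are omitted. -/
noncomputable def chartStrata (χ : ℚ) (ν : Fin n → ℕ) (A : Finset (Fin n → ℤ)) (T : Fan n) :
    List QStratum :=
  (cfaces A).toList.flatMap fun φ => (coneF A T φ).toList.flatMap fun δ =>
    if dimF φ = 0 then [(wgtF χ ν A φ δ, dataF ν A δ)]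
    else [(wgtF χ ν A φ δ, dataF ν A δ), (-wgtF χ ν A φ δ, (1, 1) :: dataF ν A δ)]

/-- The strata over the origin of the resolution of `P (g_1, …, g_k)`, `A = expo P`. -/
noncomputable def compStrata (A : Finset (Fin k → ℤ)) (g : Fin k → List QStratum)
    (T : ∀ I : (i : Fin k) → Fin (g i).length, Fan (dimD fun i => ((g i).get (I i)).2)) :
    List QStratum :=
  (univ : Finset ((i : Fin k) → Fin (g i).length)).toList.flatMap fun I =>
    chartStrata (∏ i, ((g i).get (I i)).1) (nuD fun i => ((g i).get (I i)).2)
      (chartA A fun i => ((g i).get (I i)).2) (T I)

open Classical in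
/-- The multiplicity `multS`, reduced: for `V = ∅` and `t₀ = 1` the multiplicity of the constants
(the Euler characteristic of the part of the slice in the coordinate subspaces on which `P`
vanishes, which is one if `P` vanishes on `ℂ^K`, and zero otherwise) is subtracted. -/
noncomputable def multSr (A : Finset (Fin k → ℤ)) (K : Finset (Fin k)) (b : Fin k → ℝ)
    (V : Finset (Fin k)) (lam : Fin k → ℂ) (t₀ : ℂ) : ℤ :=
  multS A K b V lam t₀ -
    if V = ∅ ∧ t₀ = 1 ∧ ∀ v ∈ A, ∃ i, i ∉ K ∧ v i ≠ 0 then 1 else 0

/-- The eigenvalues of `P (g_1, …, g_k)` detected by `multSr`. -/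
def compEig (A : Finset (Fin k → ℤ)) (b : Fin k → ℝ) (E : Fin k → Set ℂ) : Set ℂ :=
  {t | ∃ (K V : Finset (Fin k)) (lam : Fin k → ℂ), Disjoint V K ∧ (∀ i ∈ V, lam i ∈ E i) ∧
    multSr A K b V lam t ≠ 0}

/-- The germs obtained from plane curve germs and products of linear forms by iterated
nondegenerate compositions in separate variables, with their strata over the origin and the
detected eigenvalues. -/
inductive Res : List QStratum → Set ℂ → Prop
  | curve (C : CurveGerm) : Res (C.strata.map toQ) C.eig
  | arr (M : ArrGerm) : Res (M.strata.map toQ) M.eig
  | comp {k : ℕ} (P : MvPolynomial (Fin k) ℂ) (b : Fin k → ℝ) (g : Fin k → List QStratum)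
      (E : Fin k → Set ℂ)
      (T : ∀ I : (i : Fin k) → Fin (g i).length, Fan (dimD fun i => ((g i).get (I i)).2)) :
      P ≠ 0 → P.coeff 0 = 0 → (∀ i, 0 < b i) → LinearIndependent ℚ b →
      (∀ i, Res (g i) (E i)) →
      (∀ I, Adapted (chartA (expo P) fun i => ((g i).get (I i)).2) (T I) ∧ Unimod (T I)) →
      Res (compStrata (expo P) g T) (compEig (expo P) b E)

end It

end Mono
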