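import Pool.Agent.Helper4.It.Defs
import Pool.Agent.Helper53.Comp.GoalsC

/-!
# Iterated nondegenerate compositions: the packets
-/

namespace Mono

namespace It

open Finset Filter Topology Mono.Comp

variable {n k : ℕ}

/-! ### U. Unimodular fans -/

/-- U1: star subdivision of the two-dimensional cone of `u` and `u'`. -/
def Star2 : Prop := ∀ (n : ℕ) (T : Fan n) (u u' : Fin n → ℤ), u ≠ u' →
  (∃ F ∈ T.mx, u ∈ F ∧ u' ∈ F) → ∃ T' : Fan n, ∀ G, G ∈ T'.mx ↔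
    (G ∈ T.mx ∧ ¬ (u ∈ G ∧ u' ∈ G)) ∨ ∃ F ∈ T.mx, (u ∈ F ∧ u' ∈ F) ∧
      (G = insert (u + u') (F.erase u) ∨ G = insert (u + u') (F.erase u'))

/-- `T'` refines `T`, with natural coefficients. -/
def Refines (T' T : Fan n) : Prop := ∀ F' ∈ T'.mx, ∃ F ∈ T.mx, ∀ a ∈ F',
  ∃ c : (Fin n → ℤ) → ℕ, a = ∑ u ∈ F, c u • u

/-- U2: subdivision by the hyperplane `m = 0`. -/
def NoMix : Prop := ∀ (n : ℕ) (T : Fan n) (m : Fin n → ℤ), Unimod T → ∃ T' : Fan n,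
  Unimod T' ∧ Refines T' T ∧ ∀ F ∈ T'.mx, (∀ a ∈ F, 0 ≤ m ⬝ᵥ a) ∨ ∀ a ∈ F, m ⬝ᵥ a ≤ 0

/-- U3: unimodular refinements of the dual fan. -/
def UniFan : Prop := ∀ (n : ℕ) (A : Finset (Fin n → ℤ)), A.Nonempty →
  ∃ T : Fan n, Adapted A T ∧ Unimod T

/-! ### K. Integral poles -/

open Classical in
/-- `multR`, with the simplices in `Z` (if `a` is an integer). -/
noncomputable def multI (Φ : Fan n) (Z S : Finset (Fin n → ℤ)) (V : Finset (Fin n))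
    (w : Fin n → ℝ) (a : ℝ) : ℤ :=
  multR Φ Z S V w a + if ∃ z : ℤ, a = z then
    ∑ τ ∈ Φ.faces.filter (fun τ => S ⊆ τ ∧ τ ⊆ Z ∧ V ⊆ cs τ), (-1) ^ (n - τ.card) else 0

open Classical in
/-- K2: the box points of a cone generated by basis vectors. -/
def BoxCountZ : Prop := ∀ (n : ℕ) (Z τ : Finset (Fin n → ℤ)) (V : Finset (Fin n))
  (w : Fin n → ℝ), (∀ u ∈ τ, ∃ i, u = Pi.single i 1) → τ ⊆ Z → V ⊆ cs τ →
  (∀ i, i ∉ V → w i = 1) → ∀ a : ℝ,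
  ∑ G ∈ τ.powerset, lstarR Z w a G = if ∃ z : ℤ, a = z then 1 else 0

/-- K3. -/
def MultFormulaI : Prop := ∀ (n : ℕ) (Φ : Fan n) (Z S : Finset (Fin n → ℤ)) (V : Finset (Fin n))
  (w : Fin n → ℝ), Φ.Newton Z → S ⊆ Z → (∀ i, i ∉ V → w i = 1) → ∀ a : ℝ,
  multI Φ Z S V w a = ∑ G ∈ Φ.faces, (lstarR Z w a G : ℤ) * ellV Φ V (G ∪ S)

/-- K4. -/
def ClassMainI : Prop := ∀ (n : ℕ) (Φ : Fan n), Φ.Coherent → ∀ (Z σ : Finset (Fin n → ℤ))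
  (V : Finset (Fin n)) (w : Fin n → ℝ) (c : (Fin n → ℤ) → ℝ), Φ.Newton Z →
  (∀ i, i ∉ V → w i = 1) → IsClassR Φ w σ c →
  multI Φ Z (σ ∩ Z) V w (∑ t ∈ σ \ Z, c t) = 0 → StarV Φ V (ncore Z σ c)

/-- K9. -/
def NodeKillI : Prop := ∀ (n : ℕ) (Φ : Fan n), Φ.Coherent → ∀ (Z : Finset (Fin n → ℤ))
  (V : Finset (Fin n)) (w δ : Fin n → ℝ), Φ.Newton Z → (∀ i ∈ V, 0 < δ i) →
  (∀ i, i ∉ V → w i = 1 ∧ δ i = 0) →
  ∃ ε₀ : ℝ, 0 < ε₀ ∧ ∀ ε : ℝ, 0 < ε → ε < ε₀ → ∀ (σ : Finset (Fin n → ℤ))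
    (c : (Fin n → ℤ) → ℝ), IsClassR Φ (w - ε • δ) σ c → ¬ KillR Φ V Z σ →
    ∀ F ∈ Φ.mx, σ ⊆ F → ∃ S ⊆ Z, multI Φ Z S V w (psi Z F w) ≠ 0

/-- G7. -/
def NodeLimI : Prop := ∀ (k : ℕ) (A Z : Finset (Fin k → ℤ)) (Φ : Fan k), 0 < k → Tri A Z Φ →
  Φ.Coherent → ∀ (e : Fin k → ℕ) (x : Fin k → ℝ × ℕ), (∀ i, 0 < (x i).1) →
  ∀ v : Finset (Fin k → ℤ) → ℝ, ApexInv (Vset e x) v →
  ∀ F : ℝ → (Fin k → Multiset ℝ) → ℝ, (∀ s, 0 < s → Ext Φ (WR Φ v Z s) (F s)) →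
  ∃ (G : Finset ℝ) (m : ℕ) (Q : Polynomial ℝ),
    (∀ a ∈ G, 0 < a ∧ ∃ S ⊆ Z, multI Φ Z S (Vset e x) (fun i => (x i).1) a ≠ 0) ∧
    ∀ s : ℝ, 0 < s → F s (repl x) * ∏ b ∈ G, (s + b) ^ m = Q.eval s

/-- G11. -/
def LinkI : Prop := ∀ (k : ℕ) (A Z S : Finset (Fin k → ℤ)) (Φ : Fan k) (b : Fin k → ℝ),
  Tri A Z Φ → BFan A Z b Φ → (∀ i, 0 < b i) → S ⊆ Z → ∀ (V : Finset (Fin k)) (w : Fin k → ℝ)
  (a : ℝ), multI Φ Z S V w a ≠ 0 →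
  ∃ K : Finset (Fin k), multSr A K b (V \ K)
    (fun i => Complex.exp (2 * Real.pi * Complex.I * (-(w i : ℂ))))
    (Complex.exp (2 * Real.pi * Complex.I * (-(a : ℂ)))) ≠ 0

/-! ### T. Twisted zeta functions of a chart -/

/-- The coefficient of a face of dimension `d`. -/
noncomputable def cT (e d : ℕ) (s : ℝ) : ℝ := if e = 1 then cDL d s else (-1) ^ d

open Classical in
/-- The twisted Denef–Loeser expression with real weights, evaluated at a real number. -/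
noncomputable def ZrealT (e : ℕ) (w : Fin n → ℝ) (A : Finset (Fin n → ℤ)) (T : Fan n) (s : ℝ) :
    ℝ :=
  ∑ φ ∈ (cfaces A).filter (fun φ => e ∣ latDist φ), cT e (dimF φ) s * (nvol φ : ℝ) *
    ∑ δ ∈ coneF A T φ, (idx (δ : Set (Fin n → ℤ)) : ℝ) / ∏ a ∈ δ, ((NA A a : ℝ) * s + w ⬝ᵥ toR a)

open Classical in
/-- The twisted Denef–Loeser expression for the form `∏ y^{ν - 1} dy`. -/
noncomputable def ZDLt (e : ℕ) (ν : Fin n → ℕ) (A : Finset (Fin n → ℤ)) (T : Fan n) :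
    RatFunc ℂ :=
  ∑ φ ∈ (cfaces A).filter (fun φ => e ∣ latDist φ),
    (if dimF φ = 0 then 1 else if e = 1 then RatFunc.X / (RatFunc.X + 1) * (-1) ^ dimF φ
      else (-1) ^ dimF φ) * RatFunc.C (nvol φ : ℂ) *
    ∑ δ ∈ coneF A T φ, RatFunc.C (idx (δ : Set (Fin n → ℤ)) : ℂ) /
        ∏ a ∈ δ, (RatFunc.C (NA A a : ℂ) * RatFunc.X + RatFunc.C (∑ i, (ν i : ℂ) * (a i : ℂ)))

/-- `vol (D τ) ^ 2`, if `e₀` divides the lattice distance of `D τ` from the origin. -/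
noncomputable def vT (e₀ : ℕ) (D : Fin k → ℕ) (τ : Finset (Fin k → ℤ)) : ℝ :=
  if e₀ ∣ latDist (τ.image (fun u i => (D i : ℤ) * u i)) then vG D τ else 0

/-- Möbius inversion of `vT`. -/
noncomputable def vTE (e₀ : ℕ) (e : Fin k → ℕ) (τ : Finset (Fin k → ℤ)) : ℝ :=
  ∑ d ∈ Fintype.piFinset (fun i => (e i).divisors),
    (∏ i, ((ArithmeticFunction.moebius (e i / d i) : ℤ) : ℝ)) * vT e₀ d τ

/-- The factor `s + 1` for `e = 1`. -/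
noncomputable def αT (e : ℕ) (s : ℝ) : ℝ := if e = 1 then s + 1 else 1

/-- The coefficient of the constant term. -/
noncomputable def βT (e : ℕ) : ℝ := if e = 1 then 1 else 0

/-- The factor `s` for `e = 1`. -/
noncomputable def γT (e : ℕ) (s : ℝ) : ℝ := if e = 1 then s else 1

open Classical in
/-- T1: from faces to simplices. -/
def FaceSumT : Prop := ∀ (n : ℕ) (e : ℕ) (w : Fin n → ℝ) (A Z : Finset (Fin n → ℤ))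
  (Φ T : Fan n), Tri A Z Φ → ∀ s : ℝ, ZrealT e w A T s =
    ∑ τ ∈ Φ.faces.filter (fun τ => τ.Nonempty ∧ τ ⊆ A),
      if e ∣ latDist τ then cT e (τ.card - 1) s * (vol τ : ℝ) * Jsum A Z T τ s w else 0

open Classical in
/-- T2: the relation with `W`, for a function on the simplices which vanishes on `∅`. -/
def ZWIdentityT : Prop := ∀ (n : ℕ) (A Z : Finset (Fin n → ℤ)) (Φ T : Fan n), 0 < n →
  Tri A Z Φ → Adapted A T → ∀ w : Fin n → ℝ, Φ.Generic w → ∀ s : ℝ,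
  (∀ F ∈ Φ.mx, s + psi Z F w ≠ 0) →
  (∀ δ ∈ T.mx, ∀ a ∈ δ, (NA A a : ℝ) * s + w ⬝ᵥ toR a ≠ 0) →
  (∀ δ ∈ T.mx, ∀ a ∈ δ, w ⬝ᵥ toR a ≠ 0) → ∀ c : Finset (Fin n → ℤ) → ℝ, c ∅ = 0 →
  ∑ τ ∈ Φ.faces.filter (fun τ => τ.Nonempty ∧ τ ⊆ A),
    c τ * (-1) ^ (τ.card - 1) * (vol τ : ℝ) * Jsum A Z T τ s w =
  -WR Φ (fun τ => c τ * (vol τ : ℝ) ^ 2) Z s w

/-- T3: the lattice distance of a lifted simplex. -/
def LiftLat : Prop := ∀ (n k : ℕ) (blk : Fin n → Fin k) (N : Fin n → ℕ),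
  Function.Surjective blk → (∀ j, 0 < N j) → ∀ τ : Finset (Fin k → ℤ),
  latDist (τ.image (lift blk N)) = latDist (τ.image (fun u i => (blkGcd blk N i : ℤ) * u i))

open Classical in
/-- T4: the twisted formula of a chart at generic weights. -/
def ChartFormulaT : Prop := ∀ (n k : ℕ) (A Z : Finset (Fin k → ℤ)) (Φ : Fan k), 0 < k →
  Tri A Z Φ → ∀ (blk : Fin n → Fin k) (N : Fin n → ℕ), Function.Surjective blk →
  (∀ j, 0 < N j) → ∀ T : Fan n, Adapted (A.image (lift blk N)) T → ∀ e₀ : ℕ, 0 < e₀ →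
  ∀ s : ℝ, 0 < s → ∀ ρ : Fin n → ℝ, (∀ j, 0 < ρ j) → GenR Φ blk ρ →
  αT e₀ s * ZrealT e₀ (fun j => (N j : ℝ) * ρ j) (A.image (lift blk N)) T s =
    βT e₀ * ∏ j, ((N j : ℝ) * ρ j)⁻¹ -
      γT e₀ s * ((∏ j, (N j : ℝ)⁻¹) * DDc blk ρ (WR Φ (vT e₀ (blkGcd blk N)) Z s))

/-- T5a: evaluation. -/
def ZEvalT : Prop := ∀ (n e : ℕ) (ν : Fin n → ℕ) (A : Finset (Fin n → ℤ)) (T : Fan n),
  (∀ i, 0 < ν i) → (∀ v ∈ A, ∀ i, 0 ≤ v i) → ∀ s : ℝ, 0 < s →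
  (ZDLt e ν A T).denom.eval (s : ℂ) ≠ 0 ∧
    RatFunc.eval (RingHom.id ℂ) (s : ℂ) (ZDLt e ν A T) = ((ZrealT e (nuR ν) A T s : ℝ) : ℂ)

/-- T5b: continuity. -/
def ZrealContT : Prop := ∀ (n e : ℕ) (w θ : Fin n → ℝ) (A : Finset (Fin n → ℤ)) (T : Fan n),
  (∀ i, 0 < w i) → A.Nonempty → (∀ v ∈ A, ∀ i, 0 ≤ v i) → ∀ s : ℝ, 0 < s →
  Tendsto (fun ε : ℝ => ZrealT e (w + ε • θ) A T s) (𝓝[>] 0) (𝓝 (ZrealT e w A T s))

open Classical in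
/-- T6: existence of the extension, and the formula for all charts. -/
def ExtExistsT : Prop := ∀ (k : ℕ) (A Z : Finset (Fin k → ℤ)) (Φ : Fan k), 0 < k → Tri A Z Φ →
  ∀ e₀ : ℕ, 0 < e₀ → ∀ D : Fin k → ℕ, (∀ i, 0 < D i) → ∀ s : ℝ, 0 < s →
  ∃ F : (Fin k → Multiset ℝ) → ℝ, Ext Φ (WR Φ (vT e₀ D) Z s) F ∧
  ∀ (n : ℕ) (blk : Fin n → Fin k) (N : Fin n → ℕ), Function.Surjective blk → (∀ j, 0 < N j) →
    (∀ i, blkGcd blk N i = D i) → ∀ T : Fan n, Adapted (A.image (lift blk N)) T →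
    ∀ ρ : Fin n → ℝ, (∀ j, 0 < ρ j) →
    αT e₀ s * ZrealT e₀ (fun j => (N j : ℝ) * ρ j) (A.image (lift blk N)) T s =
      βT e₀ * ∏ j, ((N j : ℝ) * ρ j)⁻¹ - γT e₀ s * ((∏ j, (N j : ℝ)⁻¹) * F (ms blk ρ))

/-- T7: Möbius inversion. -/
def MoebiusT : Prop := (∀ (k e₀ : ℕ) (e : Fin k → ℕ) (V : Finset (Fin k)),
    (∀ i, i ∉ V → e i = 1) → ApexInv V (vTE e₀ e)) ∧
  ∀ (k e₀ : ℕ) (Z : Finset (Fin k → ℤ)) (Φ : Fan k) (s : ℝ)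
    (F : (Fin k → ℕ) → (Fin k → Multiset ℝ) → ℝ),
    (∀ D, (∀ i, 0 < D i) → Ext Φ (WR Φ (vT e₀ D) Z s) (F D)) →
    ∀ e, (∀ i, 0 < e i) → Ext Φ (WR Φ (vTE e₀ e) Z s) (FE F e)

/-! ### C. The expansion and the strata -/

open Classical in
/-- The partial fractions of the twisted zeta function of a germ. -/
noncomputable def coefQ (red : Multiset ℝ → (ℝ × ℕ →₀ ℝ)) (g : List QStratum) (e : ℕ) :
    ℝ × ℕ →₀ ℝ :=
  (g.map (fun t => if ∀ q ∈ t.2, e ∣ q.1 then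
    ((t.1 : ℝ) * (t.2.map (fun q => (q.1 : ℝ)⁻¹)).prod) •
      red ((t.2.map (fun q => (q.2 : ℝ) / (q.1 : ℝ)) : List ℝ) : Multiset ℝ) else 0)).sum

/-- C1: nonzero coefficients give poles. -/
def CoefPoleQ : Prop := ∀ red, IsRed red → ∀ (g : List QStratum), GoodQ g →
  ∀ (e : ℕ) (x : ℝ × ℕ), coefQ red g e x ≠ 0 →
  0 < x.1 ∧ (ZQ g e).denom.eval (-(x.1 : ℂ)) = 0 ∧
    (0 < x.2 → 2 ≤ (ZQ g e).denom.rootMultiplicity (-(x.1 : ℂ)))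

/-- The twisted zeta function of `P (g_1, …, g_k)`, as a sum over the charts. -/
noncomputable def ZTs (A : Finset (Fin k → ℤ)) (g : Fin k → List QStratum)
    (T : ∀ I : (i : Fin k) → Fin (g i).length, Fan (dimD fun i => ((g i).get (I i)).2)) (e : ℕ) :
    RatFunc ℂ :=
  ∑ I : (i : Fin k) → Fin (g i).length,
    RatFunc.C ((∏ i, ((g i).get (I i)).1 : ℚ) : ℂ) *
      ZDLt e (nuD fun i => ((g i).get (I i)).2) (chartA A fun i => ((g i).get (I i)).2) (T I)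

open Classical in
/-- C2: the expansion of the zeta function. -/
def CollectT : Prop := ∀ red, IsRed red → ∀ (k : ℕ) (A Z : Finset (Fin k → ℤ)) (Φ : Fan k),
  0 < k → Tri A Z Φ → ∀ g : Fin k → List QStratum, (∀ i, GoodQ (g i)) →
  ∀ T : ∀ I : (i : Fin k) → Fin (g i).length, Fan (dimD fun i => ((g i).get (I i)).2),
  (∀ I, Adapted (chartA A fun i => ((g i).get (I i)).2) (T I)) → ∀ e₀ : ℕ, 0 < e₀ →
  ∀ F : ℝ → (Fin k → ℕ) → (Fin k → Multiset ℝ) → ℝ,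
  (∀ s, 0 < s → ∀ D, (∀ i, 0 < D i) → Ext Φ (WR Φ (vT e₀ D) Z s) (F s D) ∧
    ∀ (n : ℕ) (blk : Fin n → Fin k) (N : Fin n → ℕ), Function.Surjective blk → (∀ j, 0 < N j) →
      (∀ i, blkGcd blk N i = D i) → ∀ T : Fan n, Adapted (A.image (lift blk N)) T →
      ∀ ρ : Fin n → ℝ, (∀ j, 0 < ρ j) →
      αT e₀ s * ZrealT e₀ (fun j => (N j : ℝ) * ρ j) (A.image (lift blk N)) T s =
        βT e₀ * ∏ j, ((N j : ℝ) * ρ j)⁻¹ - γT e₀ s * ((∏ j, (N j : ℝ)⁻¹) * F s D (ms blk ρ))) →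
  ∃ (C₀ : ℝ) (B : ℕ), ∀ s : ℝ, 0 < s → (ZTs A g T e₀).denom.eval (s : ℂ) ≠ 0 ∧
    RatFunc.eval (RingHom.id ℂ) (s : ℂ) (ZTs A g T e₀) = (((βT e₀ * C₀ -
      γT e₀ s * ∑ e ∈ Fintype.piFinset (fun _ : Fin k => Icc 1 B),
        ∑ x ∈ Fintype.piFinset (fun i => (coefQ red (g i) (e i)).support),
          (∏ i, coefQ red (g i) (e i) (x i)) * FE (F s) e (repl x)) / αT e₀ s : ℝ) : ℂ)

/-- C3: divisibility on a unimodular cone. -/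
def DvdCone : Prop := ∀ (n : ℕ) (A : Finset (Fin n → ℤ)) (T : Fan n), A.Nonempty →
  (0 : Fin n → ℤ) ∉ A →
  (∀ v ∈ A, ∀ i, 0 ≤ v i) → Unimod T → ∀ φ ∈ cfaces A, ∀ δ ∈ coneF A T φ,
  idx (δ : Set (Fin n → ℤ)) = 1 ∧
  ∀ e : ℕ, (∀ a ∈ δ, (e : ℤ) ∣ NA A a) ↔ e ∣ latDist φ

/-- C4: the zeta functions of the strata of a chart. -/
def ZQChart : Prop := ∀ (n : ℕ) (χ : ℚ) (ν : Fin n → ℕ) (A : Finset (Fin n → ℤ))
  (T : Fan n), (∀ i, 0 < ν i) → A.Nonempty → (0 : Fin n → ℤ) ∉ A → (∀ v ∈ A, ∀ i, 0 ≤ v i) →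
  Unimod T → GoodQ (chartStrata χ ν A T) ∧
  ∀ e : ℕ, 0 < e → ZQ (chartStrata χ ν A T) e = RatFunc.C (χ : ℂ) * ZDLt e ν A T

/-- C5: the zeta functions of the strata. -/
def ZQComp : Prop := ∀ (k : ℕ) (A : Finset (Fin k → ℤ))
  (g : Fin k → List QStratum)
  (T : ∀ I : (i : Fin k) → Fin (g i).length, Fan (dimD fun i => ((g i).get (I i)).2)),
  A.Nonempty → (0 : Fin k → ℤ) ∉ A → (∀ v ∈ A, ∀ i, 0 ≤ v i) → (∀ i, GoodQ (g i)) →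
  (∀ I, Unimod (T I)) → GoodQ (compStrata A g T) ∧
  ∀ e : ℕ, 0 < e → ZQ (compStrata A g T) e = ZTs A g T e

/-- C6: poles of a rational function known at the positive real numbers, with the order
at `-1`. -/
def PoleR2 : Prop := ∀ (Z : RatFunc ℂ) (Y : ℝ → ℝ) (G : Finset ℝ) (m : ℕ) (Q : Polynomial ℝ),
  (∀ s : ℝ, 0 < s → Z.denom.eval (s : ℂ) ≠ 0 ∧
    RatFunc.eval (RingHom.id ℂ) (s : ℂ) Z = ((Y s : ℝ) : ℂ)) →
  (∀ s : ℝ, 0 < s → Y s * (s + 1) * ∏ b ∈ G, (s + b) ^ m = Q.eval s) →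
  (1 : ℝ) ∉ G → Z.denom.rootMultiplicity (-1) ≤ 1

/-- C7: integral Euler characteristics. -/
def BaseQ : Prop := ∀ (g : List Stratum) (E : Set ℂ),
  (GoodG g → GoodQ (g.map toQ)) ∧ (SMC g E → SMCQ (g.map toQ) E)

/-- The closure theorem. -/
def Closure : Prop := ∀ (k : ℕ) (A : Finset (Fin k → ℤ)) (b : Fin k → ℝ), A.Nonempty →
  (∀ v ∈ A, ∀ i, 0 ≤ v i) → (0 : Fin k → ℤ) ∉ A → (∀ i, 0 < b i) → LinearIndependent ℚ b →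
  ∀ (g : Fin k → List QStratum) (E : Fin k → Set ℂ), (∀ i, GoodQ (g i)) →
  (∀ i, SMCQ (g i) (E i)) →
  (∀ I : (i : Fin k) → Fin (g i).length, ∃ T : Fan (dimD fun i => ((g i).get (I i)).2),
    Adapted (chartA A fun i => ((g i).get (I i)).2) T ∧ Unimod T) ∧
  ∀ T : ∀ I : (i : Fin k) → Fin (g i).length, Fan (dimD fun i => ((g i).get (I i)).2),
  (∀ I, Adapted (chartA A fun i => ((g i).get (I i)).2) (T I) ∧ Unimod (T I)) →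
  GoodQ (compStrata A g T) ∧ SMCQ (compStrata A g T) (compEig A b E)

end It

end Mono
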